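import Pool.Agent.H71.NC.CoeffOver
import Pool.Agent.H71.NC.Criterion

open CategoryTheory MonoidalCategory

namespace Pool.Agent.Results.MP_eadf0f_ag.DescentCriterion

open Pool.Agent.H71.NC

universe w v u x y

/-- For any realization `R` of a rigid `F`-linear symmetric monoidal category with `End 𝟙 = F`,
`F` of characteristic zero, in super vector spaces over an extension `K` of `F`, and any object
`A`, the following are equivalent: the Kunneth standard conjecture for `A`; the same conjecture
with coefficients in any other field `E`; every `K`-subspace of the realization of `A` stable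
under all endomorphisms of `A` is graded, that is, stable under the even projector. -/
theorem result {F K : Type w} [Field F] [Field K] [Algebra F K] [CharZero F]
    {C : Type u} [Category.{v} C] [Preadditive C] [Linear F C]
    [MonoidalCategory C] [SymmetricCategory C] [RightRigidCategory C]
    (hunit : ∀ z : 𝟙_ C ⟶ 𝟙_ C, ∃ c : F, z = c • 𝟙 (𝟙_ C))
    (R : SuperRealization F K C) (A : C)
    (E : Type x) (L : Type y) [Field E] [Field L] [Algebra K L] [Algebra E L] :
    (R.CNCOver E L A ↔ R.CNC A) ∧
    (R.CNC A ↔ ∀ U : Submodule K (R.H.obj A), (∀ f : A ⟶ A, ∀ x ∈ U, R.act f x ∈ U) →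
      ∀ x ∈ U, R.projEven A x ∈ U) :=
  ⟨R.cncOver_iff hunit A Aᘁ E L, R.cnc_iff_graded hunit A Aᘁ⟩

end Pool.Agent.Results.MP_eadf0f_ag.DescentCriterion
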