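import Pool.Agent.H71.NC.Indep

open CategoryTheory MonoidalCategory

namespace Pool.Agent.Results.MP_eadf0f_ag.RealizationIndependence

open Pool.Agent.H71.NC

universe w v u

/-- Independence of the realization: let `R`, `R'` be realizations of a rigid `F`-linear
symmetric monoidal category with `End 𝟙 = F`, `F` of characteristic zero, in super vector spaces
over extensions `K`, `K'` of `F`. If the Kunneth standard conjecture holds for `A` with respect
to `R`, then the dimension of the realization of `A` under `R` is at most its dimension under
`R'`, and if the two dimensions are equal, then the conjecture holds for `A` with respect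
to `R'`. -/
theorem result {F K K' : Type w} [Field F] [Field K] [Algebra F K] [Field K'] [Algebra F K']
    [CharZero F] {C : Type u} [Category.{v} C] [Preadditive C] [Linear F C]
    [MonoidalCategory C] [SymmetricCategory C] [RightRigidCategory C]
    (hunit : ∀ z : 𝟙_ C ⟶ 𝟙_ C, ∃ c : F, z = c • 𝟙 (𝟙_ C))
    (R : SuperRealization F K C) (R' : SuperRealization F K' C) (A : C) (h : R.CNC A) :
    Module.finrank K (R.H.obj A) ≤ Module.finrank K' (R'.H.obj A) ∧
      (Module.finrank K' (R'.H.obj A) = Module.finrank K (R.H.obj A) → R'.CNC A) :=
  R.cnc_realization R' hunit A Aᘁ h

end Pool.Agent.Results.MP_eadf0f_ag.RealizationIndependence
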