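import Pool.Agent.H8.Bock.Final

open CategoryTheory

namespace Pool.Agent.Results.MP_eadf0f_ag.TorsionObstruction

open Pool.Agent.H8.Bock

universe w v u x

/-- The Kunneth standard conjecture in positive characteristic and torsion. Let `W` be a
Noetherian local ring with residue field `k`, let `p` lie in its maximal ideal, and let `R` be a
Bockstein pair on a category `C` (for the noncommutative Chow motives over a perfect field `k` of
characteristic `p`: `W = W(k)`, `T i = TP_i`, `H i = HP_i`). Let `A` be an object for which `T 0 A`
and `T 1 A` are finitely generated over `W`.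

For every extension `F` of `k`, the even (or the odd) projector of `F ⊗ H A` is algebraic if and
only if `T A` has no `p`-torsion and both projectors of `T A` are algebraic with coefficients
in `W`. If one of the projectors of `H A` is algebraic with coefficients in a subfield `F` of `k`,
then again `T A` has no `p`-torsion and both projectors of `T A` are algebraic. -/
theorem result {W k : Type w} [CommRing W] [IsNoetherianRing W] [IsLocalRing W] [Field k]
    [Algebra W k] (hk : Function.Surjective (algebraMap W k)) {p : W}
    (hp : p ∈ IsLocalRing.maximalIdeal W) {C : Type u} [Category.{v} C]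
    (R : BocksteinPair W k p C) (A : C) [∀ i, Module.Finite W ((R.T i).obj A)] :
    (∀ (F : Type x) [Field F] [Algebra k F] (e : ZMod 2),
      R.AlgHExt F A e ↔ R.TorsionFree A ∧ ∀ e', R.AlgT A e') ∧
    (∀ (F : Subfield k) (e : ZMod 2),
      R.AlgHSub F A e → R.TorsionFree A ∧ ∀ e', R.AlgT A e') := by
  have key : ∀ e, R.AlgH A e → R.TorsionFree A ∧ ∀ e', R.AlgT A e' := by
    intro e h
    obtain ⟨h1, h2⟩ := R.main_forward hp hk A (R.algH_zero_of A e h)
    exact ⟨h1, fun e' => R.algT_of_zero A e' h2⟩
  refine ⟨?_, ?_⟩
  · intro F _ _ e
    rw [R.algHExt_iff]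
    exact ⟨key e, fun h => R.algH_of_zero A e (R.main_backward A h.1 (h.2 0))⟩
  · intro F e h
    exact key e (R.algHSub_to_self F A e h)

end Pool.Agent.Results.MP_eadf0f_ag.TorsionObstruction
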